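import Pool.Agent.W641.OS.All

/-!
# MP_783066_gt: the smash product of orthogonal spectra is not fully homotopical

The definitions are in `Pool/Agent/W641/OS/Defs.lean`.

The example. Let `A = {0, 1, 1/2, 1/3, …}` and let `X_n` be the one-point compactification of
`E_n = {(s, z, y) : s ∈ A, z, y ∈ ℝ^n, |y| = s, y · z = s}`, with the structure maps
`((s, z, y), t) ↦ (s, (z, t), (y, 0))`. (The part `s = 0` is the sphere spectrum `S`, the part
`s > 0` consists of copies of the Thom spectrum with levels `Th(T S^{n-1})`; the parts with
`s = 1/i` converge to the part `s = 0`.) Let `Y = S` be the sphere spectrum, let `Y'_n` be the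
one-point compactification of the open unit ball of `ℝ^n` and let `f : Y → Y'` be the collapse
map, a level equivalence. Then `X ∧ Y = X`, and `W = X ∧ Y'` is the quotient of `X` whose level
`n` is the one-point compactification of the set of the `(s, z, y) ∈ E_n` with `|z| < 1`, if
`s = 0`, and `|z|² < 2`, if `s > 0`. In `W` the parts `s = 1/i` shrink to the base point, so
that there is a map `S^{n-1} → W_n` which is essential on infinitely many of these parts; it
gives an element of `π_{-1} W` which is not in the image of `π_{-1} X`, as a map from a
sphere to `X_n` avoids the core of almost all parts.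
-/

set_option autoImplicit false

namespace Pool.Agent.Results.MP_783066_gt.SmashNotFullyHomotopical

open Pool.Agent.W641.OS

/-- The smash product of orthogonal spectra is not fully homotopical. There are orthogonal
spectra `X`, `Y`, `Y'`, with compact Hausdorff levels and nondegenerate base points, and a
stable equivalence (even a level equivalence) `f : Y → Y'` such that `X ∧ Y` and `X ∧ Y'`
exist and such that, for every choice of these smash products (that is, of universal
bimorphisms), the unique morphism `X ∧ f` is not a stable equivalence. -/
theorem result : ∃ (X Y Y' : OrthSpectrum) (f : Hom Y Y'),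
    NiceLevels X ∧ NiceLevels Y ∧ NiceLevels Y' ∧ IsLevelEquiv f ∧ IsStableEquiv f ∧
    (∃ (P : OrthSpectrum) (β : Bimorphism X Y P), IsSmash β) ∧
    (∃ (P' : OrthSpectrum) (β' : Bimorphism X Y' P'), IsSmash β') ∧
    ∀ (P P' : OrthSpectrum) (β : Bimorphism X Y P) (β' : Bimorphism X Y' P'),
      IsSmash β → IsSmash β' →
        (∃! F : Hom P P', IsSmashMap β β' f F) ∧
        ∀ F : Hom P P', IsSmashMap β β' f F → ¬ IsStableEquiv F :=
  main

end Pool.Agent.Results.MP_783066_gt.SmashNotFullyHomotopical
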